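import Pool.Agent.helper37.MA.Spec

/-!
# ma:UPI: the product of two binomial coefficients increases and then decreases
-/

set_option autoImplicit false

namespace Pool.Agent.helper37.MA

open Finset Pool.Agent.NK Pool.Agent.helper37.NF

theorem UPI : UPI_stmt := by
  intro a b t i hit
  obtain ⟨s, rfl⟩ : ∃ s, t = i + 1 + s := ⟨t - (i + 1), by omega⟩
  have e1 : i + 1 + s - i = s + 1 := by omega
  have e2 : i + 1 + s - (i + 1) = s := by omega
  unfold ff
  rw [e1, e2]
  have h1 := Nat.choose_succ_right_eq a i
  have h2 := Nat.choose_succ_right_eq b s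
  have key : a.choose (i + 1) * b.choose s * ((i + 1) * (b - s)) =
      a.choose i * b.choose (s + 1) * ((a - i) * (s + 1)) := by
    calc a.choose (i + 1) * b.choose s * ((i + 1) * (b - s))
        = (a.choose (i + 1) * (i + 1)) * (b.choose s * (b - s)) := by ring
      _ = (a.choose i * (a - i)) * (b.choose (s + 1) * (s + 1)) := by rw [h1, h2]
      _ = a.choose i * b.choose (s + 1) * ((a - i) * (s + 1)) := by ring
  constructor
  · intro h3 h4
    rcases Nat.lt_or_ge s b with hsb | hsb
    · have hX : (i + 1) * (b - s) ≤ (a - i) * (s + 1) := by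
        have g1 : b - s ≤ 3 * (s + 1) := by omega
        have g2 : 3 * (i + 1) ≤ a - i := by omega
        calc (i + 1) * (b - s) ≤ (i + 1) * (3 * (s + 1)) := Nat.mul_le_mul_left _ g1
          _ = (3 * (i + 1)) * (s + 1) := by ring
          _ ≤ (a - i) * (s + 1) := Nat.mul_le_mul_right _ g2
      have hpos : 0 < (i + 1) * (b - s) := Nat.mul_pos (by omega) (by omega)
      refine Nat.le_of_mul_le_mul_right ?_ hpos
      rw [key]
      exact Nat.mul_le_mul_left _ hX
    · rw [Nat.choose_eq_zero_of_lt (by omega : b < s + 1), mul_zero]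
      exact Nat.zero_le _
  · intro h3 h4
    have hX : (a - i) * (s + 1) ≤ (i + 1) * (b - s) := by
      have g1 : a - i ≤ i + 1 := by omega
      have g2 : s + 1 ≤ b - s := by omega
      exact Nat.mul_le_mul g1 g2
    have hpos : 0 < (i + 1) * (b - s) := Nat.mul_pos (by omega) (by omega)
    refine Nat.le_of_mul_le_mul_right ?_ hpos
    rw [key]
    exact Nat.mul_le_mul_left _ hX

end Pool.Agent.helper37.MA
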